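import Pool.Agent.Helper96.SP.Defs2
import Mathlib.LinearAlgebra.FiniteDimensional.Basic

/-!
# Package GA of EN: `e = e e* u` in the group algebra
-/

open CategoryTheory MonoidalCategory Limits BraidedCategory

namespace Pool.Agent.Helper32.EN

open Pool.Agent.TH90.AB Pool.Agent.TH90.Kim Pool.Agent.Helper96.Kim Pool.Agent.Helper96.SP

theorem adj_add {n : ℕ} (x y : QS n) : adj (x + y) = adj x + adj y := by
  unfold adj
  rw [← Finset.sum_add_distrib]
  refine Finset.sum_congr rfl fun g _ => ?_
  rw [MonoidAlgebra.coeff_add, Finsupp.add_apply, MonoidAlgebra.single_add]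

theorem adj_single {n : ℕ} (g : Equiv.Perm (Fin n)) (a : ℚ) :
    adj (MonoidAlgebra.single g a) = MonoidAlgebra.single g⁻¹ a := by
  unfold adj
  rw [Finset.sum_eq_single g]
  · rw [MonoidAlgebra.coeff_single, Finsupp.single_eq_same]
  · intro h _ hne
    rw [MonoidAlgebra.coeff_single, Finsupp.single_eq_of_ne hne, MonoidAlgebra.single_zero]
  · simp

theorem adj_zero {n : ℕ} : adj (0 : QS n) = 0 := by
  unfold adj
  refine Finset.sum_eq_zero fun g _ => ?_
  rw [MonoidAlgebra.coeff_zero, Finsupp.zero_apply, MonoidAlgebra.single_zero]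

theorem adj_mul {n : ℕ} (x y : QS n) : adj (x * y) = adj y * adj x := by
  induction x using MonoidAlgebra.induction_linear with
  | zero => rw [zero_mul, adj_zero, mul_zero]
  | add a b ha hb => rw [add_mul, adj_add, adj_add, ha, hb, mul_add]
  | single g a =>
    induction y using MonoidAlgebra.induction_linear with
    | zero => rw [mul_zero, adj_zero, zero_mul]
    | add c d hc hd => rw [mul_add, adj_add, adj_add, hc, hd, add_mul]
    | single h b =>
      rw [MonoidAlgebra.single_mul_single, adj_single, adj_single, adj_single,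
        MonoidAlgebra.single_mul_single, mul_inv_rev, mul_comm a b]

theorem adj_adj {n : ℕ} (x : QS n) : adj (adj x) = x := by
  induction x using MonoidAlgebra.induction_linear with
  | zero => rw [adj_zero, adj_zero]
  | add a b ha hb => rw [adj_add, adj_add, ha, hb]
  | single g a => rw [adj_single, adj_single, inv_inv]

theorem coeff_adj_mul {n : ℕ} (x y : QS n) :
    (adj x * y).coeff 1 = ∑ g, x.coeff g * y.coeff g := by
  induction x using MonoidAlgebra.induction_linear with
  | zero =>
    rw [adj_zero, zero_mul, MonoidAlgebra.coeff_zero]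
    simp
  | add a b ha hb =>
    rw [adj_add, add_mul, MonoidAlgebra.coeff_add, Finsupp.add_apply, ha, hb,
      ← Finset.sum_add_distrib]
    refine Finset.sum_congr rfl fun g _ => ?_
    rw [MonoidAlgebra.coeff_add, Finsupp.add_apply, add_mul]
  | single g a =>
    induction y using MonoidAlgebra.induction_linear with
    | zero =>
      rw [mul_zero, MonoidAlgebra.coeff_zero]
      simp
    | add c d hc hd =>
      rw [mul_add, MonoidAlgebra.coeff_add, Finsupp.add_apply, hc, hd, ← Finset.sum_add_distrib]
      refine Finset.sum_congr rfl fun g _ => ?_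
      rw [MonoidAlgebra.coeff_add, Finsupp.add_apply, mul_add]
    | single h b =>
      rw [adj_single, MonoidAlgebra.single_mul_single, MonoidAlgebra.coeff_single,
        Finset.sum_eq_single g]
      · rw [MonoidAlgebra.coeff_single, MonoidAlgebra.coeff_single, Finsupp.single_eq_same]
        by_cases hgh : g = h
        · subst hgh
          rw [inv_mul_cancel, Finsupp.single_eq_same, Finsupp.single_eq_same]
        · rw [Finsupp.single_eq_of_ne (fun h1 => hgh (inv_mul_eq_one.1 h1.symm)),
            Finsupp.single_eq_of_ne hgh, mul_zero]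
      · intro k _ hk
        rw [MonoidAlgebra.coeff_single, Finsupp.single_eq_of_ne hk, zero_mul]
      · simp

/-- positivity of the involution -/
theorem eq_zero_of_adj_mul {n : ℕ} {x : QS n} (h : adj x * x = 0) : x = 0 := by
  have h1 := coeff_adj_mul x x
  rw [h, MonoidAlgebra.coeff_zero, Finsupp.zero_apply] at h1
  have h2 := (Finset.sum_eq_zero_iff_of_nonneg fun g _ => mul_self_nonneg (x.coeff g)).1 h1.symm
  apply MonoidAlgebra.coeff_injective
  ext g
  rw [MonoidAlgebra.coeff_zero, Finsupp.zero_apply]
  exact mul_self_eq_zero.1 (h2 g (Finset.mem_univ g))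

theorem ga {n : ℕ} (e : QS n) : ∃ u : QS n, e = e * adj e * u := by
  -- left multiplication by `e e*` on `e QS`
  let L : QS n →ₗ[ℚ] QS n := LinearMap.mulLeft ℚ e
  let R : Submodule ℚ (QS n) := LinearMap.range L
  let A : QS n →ₗ[ℚ] QS n := LinearMap.mulLeft ℚ (e * adj e)
  have hA : ∀ x ∈ R, A x ∈ R := by
    intro x _
    refine ⟨adj e * x, ?_⟩
    simp only [L, A, LinearMap.mulLeft_apply, mul_assoc]
  have hfin : FiniteDimensional ℚ (QS n) := by
    infer_instance
  let f : R →ₗ[ℚ] R := A.restrict hA
  have hinj : Function.Injective f := by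
    rw [← LinearMap.ker_eq_bot, LinearMap.ker_eq_bot']
    rintro ⟨y, z, rfl⟩ hy
    have h1 : e * adj e * (e * z) = 0 := congrArg Subtype.val hy
    -- `t = adj e * (e * z)`
    have h2 : adj (adj e * (e * z)) * (adj e * (e * z)) = 0 := by
      rw [adj_mul, adj_adj, mul_assoc, ← mul_assoc e, h1, mul_zero]
    have h3 := eq_zero_of_adj_mul h2
    have h4 : adj (e * z) * (e * z) = 0 := by
      rw [adj_mul, mul_assoc, h3, mul_zero]
    have h5 := eq_zero_of_adj_mul h4
    exact Subtype.ext h5
  have hsurj := LinearMap.injective_iff_surjective.1 hinj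
  obtain ⟨⟨y, z, hz⟩, hy⟩ := hsurj ⟨e, 1, by simp only [L, LinearMap.mulLeft_apply, mul_one]⟩
  have h1 : e * adj e * y = e := congrArg Subtype.val hy
  exact ⟨y, h1.symm⟩

end Pool.Agent.Helper32.EN
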